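import Mathlib
import Pool.Agent.Helper34.R9.SheetB

/-! # Row BNDB of `Pool/Agent/Helper34/R9/SheetB.lean` (compare `Helper84/R8/BND.lean`) -/

set_option autoImplicit false

namespace Pool.Helper34.R9.S25

open Pool.Helper34.R9
open Pool.Helper17.R8 (ek q4 q3 q2 q1 q0 fI fJ ss ub)

/-- `f` is at most `C m ^ k` on the box of size `m` -/
def BO (k : ℕ) (f : ℕ → (Fin 6 → ℕ) × ℕ → ℤ) : Prop :=
  ∃ C : ℤ, 0 ≤ C ∧ ∀ m : ℕ, 1 ≤ m → ∀ T ∈ BoxG 6 4 m, |f m T| ≤ C * (m : ℤ) ^ k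

theorem BO.mono {j k : ℕ} {f : ℕ → (Fin 6 → ℕ) × ℕ → ℤ} (h : BO j f) (hjk : j ≤ k) : BO k f := by
  obtain ⟨C, hC, H⟩ := h
  refine ⟨C, hC, fun m hm T hT => (H m hm T hT).trans ?_⟩
  have hm1 : (1 : ℤ) ≤ (m : ℤ) := by exact_mod_cast hm
  exact mul_le_mul_of_nonneg_left (pow_le_pow_right₀ hm1 hjk) hC

theorem BO.const (k : ℕ) (c : ℤ) : BO k (fun _ _ => c) := by
  refine ⟨|c|, abs_nonneg c, fun m hm T _ => ?_⟩
  have hm1 : (1 : ℤ) ≤ (m : ℤ) ^ k := one_le_pow₀ (by exact_mod_cast hm)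
  have := mul_le_mul_of_nonneg_left hm1 (abs_nonneg c)
  linarith

theorem BO.add {k : ℕ} {f g : ℕ → (Fin 6 → ℕ) × ℕ → ℤ} (hf : BO k f) (hg : BO k g) :
    BO k (fun m T => f m T + g m T) := by
  obtain ⟨C, hC, H⟩ := hf
  obtain ⟨D, hD, G⟩ := hg
  refine ⟨C + D, by linarith, fun m hm T hT => ?_⟩
  have h1 := H m hm T hT
  have h2 := G m hm T hT
  have h3 := abs_add_le (f m T) (g m T)
  rw [add_mul]
  linarith

theorem BO.neg {k : ℕ} {f : ℕ → (Fin 6 → ℕ) × ℕ → ℤ} (hf : BO k f) :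
    BO k (fun m T => -(f m T)) := by
  obtain ⟨C, hC, H⟩ := hf
  refine ⟨C, hC, fun m hm T hT => ?_⟩
  rw [abs_neg]
  exact H m hm T hT

theorem BO.sub {k : ℕ} {f g : ℕ → (Fin 6 → ℕ) × ℕ → ℤ} (hf : BO k f) (hg : BO k g) :
    BO k (fun m T => f m T - g m T) := by
  have h := hf.add hg.neg
  have e : (fun m T => f m T - g m T) = fun m T => f m T + -(g m T) := by
    funext m T
    ring
  rw [e]
  exact h

theorem BO.mul {j k l : ℕ} {f g : ℕ → (Fin 6 → ℕ) × ℕ → ℤ} (hf : BO j f) (hg : BO k g)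
    (hl : j + k ≤ l) : BO l (fun m T => f m T * g m T) := by
  apply BO.mono _ hl
  obtain ⟨C, hC, H⟩ := hf
  obtain ⟨D, hD, G⟩ := hg
  refine ⟨C * D, mul_nonneg hC hD, fun m hm T hT => ?_⟩
  have h1 := H m hm T hT
  have h2 := G m hm T hT
  rw [abs_mul, pow_add]
  calc |f m T| * |g m T| ≤ (C * (m : ℤ) ^ j) * (D * (m : ℤ) ^ k) :=
        mul_le_mul h1 h2 (abs_nonneg _) (le_trans (abs_nonneg _) h1)
    _ = C * D * ((m : ℤ) ^ j * (m : ℤ) ^ k) := by ring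

theorem BO.cmul {k : ℕ} {f : ℕ → (Fin 6 → ℕ) × ℕ → ℤ} (c : ℤ) (hf : BO k f) :
    BO k (fun m T => c * f m T) :=
  (BO.const 0 c).mul hf (by omega)

theorem BO.sum {ι : Type} (F : Finset ι) (k : ℕ) (f : ι → ℕ → (Fin 6 → ℕ) × ℕ → ℤ)
    (h : ∀ a ∈ F, BO k (f a)) : BO k (fun m T => ∑ a ∈ F, f a m T) := by
  classical
  induction F using Finset.induction_on with
  | empty =>
    simp only [Finset.sum_empty]
    exact BO.const k 0
  | insert a F ha ih =>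
    simp only [Finset.sum_insert ha]
    exact (h a (Finset.mem_insert_self _ _)).add
      (ih (fun b hb => h b (Finset.mem_insert_of_mem hb)))

theorem BO.prod {ι : Type} (F : Finset ι) (f : ι → ℕ → (Fin 6 → ℕ) × ℕ → ℤ)
    (h : ∀ a ∈ F, BO 1 (f a)) : BO F.card (fun m T => ∏ a ∈ F, f a m T) := by
  classical
  induction F using Finset.induction_on with
  | empty =>
    simp only [Finset.prod_empty]
    exact BO.const _ 1
  | insert a F ha ih =>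
    simp only [Finset.prod_insert ha]
    exact (h a (Finset.mem_insert_self _ _)).mul
      (ih (fun b hb => h b (Finset.mem_insert_of_mem hb)))
      (by rw [Finset.card_insert_of_notMem ha]; omega)

theorem bo_a (i : Fin 6) : BO 1 (fun _ T => (T.1 i : ℤ)) := by
  refine ⟨1, by norm_num, fun m hm T hT => ?_⟩
  unfold BoxG at hT
  rw [Finset.mem_product, Fintype.mem_piFinset] at hT
  have h1 := Finset.mem_range.1 (hT.1 i)
  rw [abs_of_nonneg (Int.natCast_nonneg _), one_mul, pow_one]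
  exact_mod_cast h1.le

theorem bo_ite (i : Fin 6) : BO 1 (fun _ T => if i = 0 then (0 : ℤ) else (T.1 i : ℤ)) := by
  by_cases hi : i = 0
  · simp only [if_pos hi]
    exact BO.const 1 0
  · simp only [if_neg hi]
    exact bo_a i

theorem bo_lin (M b : ℤ) (i : Fin 6) :
    BO 1 (fun _ T => b + M * ((if i = 0 then 0 else (T.1 i : ℤ)) + (T.1 0 : ℤ))) :=
  (BO.const 1 b).add (BO.cmul M ((bo_ite i).add (bo_a 0)))

theorem bo_zlin (M c : ℤ) : BO 4 (fun m T => c + M * (m : ℤ) ^ 4 + M * (T.2 : ℤ)) := by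
  have h1 : BO 4 (fun m _ => ((m : ℤ) ^ 4)) := by
    refine ⟨1, by norm_num, fun m hm T hT => ?_⟩
    rw [abs_of_nonneg (by positivity), one_mul]
  have h2 : BO 4 (fun _ T => (T.2 : ℤ)) := by
    refine ⟨1, by norm_num, fun m hm T hT => ?_⟩
    unfold BoxG at hT
    rw [Finset.mem_product] at hT
    have h1 := Finset.mem_range.1 hT.2
    rw [abs_of_nonneg (Int.natCast_nonneg _), one_mul]
    exact_mod_cast h1.le
  exact ((BO.const 4 c).add (BO.cmul M h1)).add (BO.cmul M h2)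

theorem bo_div {k : ℕ} {f g : ℕ → (Fin 6 → ℕ) × ℕ → ℤ} (c : ℤ) (hc : 1 ≤ c) (hf : BO k f)
    (h : ∀ m T, c * g m T = f m T) : BO k g := by
  obtain ⟨C, hC, H⟩ := hf
  refine ⟨C, hC, fun m hm T hT => ?_⟩
  have h1 := H m hm T hT
  rw [← h m T, abs_mul, abs_of_nonneg (by linarith : (0 : ℤ) ≤ c)] at h1
  have h2 : 1 * |g m T| ≤ c * |g m T| := mul_le_mul_of_nonneg_right hc (abs_nonneg _)
  linarith

section gen
variable (v : (Fin 6 → ℕ) → Fin 6 → ℤ) (hv : ∀ i, BO 1 (fun _ T => v T.1 i))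
include hv

theorem bo_s (i : Fin 8) : BO 1 (fun _ T => ss (v T.1) i) := by
  fin_cases i
  · exact hv 0
  · exact hv 1
  · exact hv 2
  · exact hv 3
  · exact hv 4
  · exact hv 5
  · exact BO.const 1 1
  · exact (((((((hv 0).add (hv 1)).add (hv 2)).add (hv 3)).add (hv 4)).add
      (hv 5)).add (BO.const 1 1)).neg

theorem bo_e (k : ℕ) : BO k (fun _ T => ek (ss (v T.1)) k) := by
  unfold ek
  apply BO.sum
  intro S hS
  have h := BO.prod S (fun i _ T => ss (v T.1) i) (fun i _ => bo_s v hv i)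
  rw [(Finset.mem_powersetCard.1 hS).2] at h
  exact h

theorem bo_g1 : BO 3 (fun _ T => g1 (ek (ss (v T.1))) (ss (v T.1) 7)) := by
  have e : (fun (_ : ℕ) (T : (Fin 6 → ℕ) × ℕ) => g1 (ek (ss (v T.1))) (ss (v T.1) 7)) =
      fun _ T => (ss (v T.1) 7 * (ss (v T.1) 7 * ss (v T.1) 7) +
        ek (ss (v T.1)) 2 * ss (v T.1) 7) - ek (ss (v T.1)) 3 := by
    funext m T
    unfold g1
    ring
  rw [e]
  exact (((bo_s v hv 7).mul ((bo_s v hv 7).mul (bo_s v hv 7) (l := 2) (by omega)) (by omega)).add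
    ((bo_e v hv 2).mul (bo_s v hv 7) (by omega))).sub (bo_e v hv 3)

theorem bo_E : BO 6 (fun _ T => EB (ek (ss (v T.1))) (ss (v T.1) 7)) := by
  have e : (fun (_ : ℕ) (T : (Fin 6 → ℕ) × ℕ) => EB (ek (ss (v T.1))) (ss (v T.1) 7)) =
      fun _ T => g1 (ek (ss (v T.1))) (ss (v T.1) 7) * g1 (ek (ss (v T.1))) (ss (v T.1) 7) -
        4 * (((ss (v T.1) 7 * (ss (v T.1) 7 * ss (v T.1) 7)) *
          g1 (ek (ss (v T.1))) (ss (v T.1) 7) +
          ek (ss (v T.1)) 4 * (ss (v T.1) 7 * ss (v T.1) 7)) -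
          ek (ss (v T.1)) 5 * ss (v T.1) 7) := by
    funext m T
    unfold EB
    ring
  rw [e]
  exact ((bo_g1 v hv).mul (bo_g1 v hv) (by omega)).sub (BO.cmul 4
    (((((bo_s v hv 7).mul ((bo_s v hv 7).mul (bo_s v hv 7) (l := 2) (by omega)) (l := 3) (by omega)).mul
      (bo_g1 v hv) (by omega)).add
      ((bo_e v hv 4).mul ((bo_s v hv 7).mul (bo_s v hv 7) (l := 2) (by omega)) (by omega))).sub
      ((bo_e v hv 5).mul (bo_s v hv 7) (by omega))))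

theorem bo_q4 (t : ℕ → (Fin 6 → ℕ) × ℕ → ℤ) (ht : BO 8 (fun m T => t m T)) : BO 8 (fun m T => q4 (ek (ss (v T.1))) (t m T)) := by
  have e : (fun (m : ℕ) (T : (Fin 6 → ℕ) × ℕ) => q4 (ek (ss (v T.1))) (t m T)) =
      fun m T => ek (ss (v T.1)) 3 * ek (ss (v T.1)) 3 - 4 * t m T := by
    funext m T
    unfold q4
    ring
  rw [e]
  exact ((bo_e v hv 3).mul (bo_e v hv 3) (by omega)).sub (BO.cmul 4 ht)

theorem bo_q3 (t : ℕ → (Fin 6 → ℕ) × ℕ → ℤ) (ht : BO 8 (fun m T => t m T)) : BO 10 (fun m T => q3 (ek (ss (v T.1))) (t m T)) := by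
  have e : (fun (m : ℕ) (T : (Fin 6 → ℕ) × ℕ) => q3 (ek (ss (v T.1))) (t m T)) =
      fun m T => 2 * (ek (ss (v T.1)) 3 * ek (ss (v T.1)) 5) -
        4 * (t m T * ek (ss (v T.1)) 2 + ek (ss (v T.1)) 8) := by
    funext m T
    unfold q3
    ring
  rw [e]
  exact (BO.cmul 2 ((bo_e v hv 3).mul (bo_e v hv 5) (by omega))).sub
    (BO.cmul 4 ((ht.mul (bo_e v hv 2) (by omega)).add ((bo_e v hv 8).mono (by omega))))

theorem bo_q2 (t : ℕ → (Fin 6 → ℕ) × ℕ → ℤ) (ht : BO 8 (fun m T => t m T)) : BO 12 (fun m T => q2 (ek (ss (v T.1))) (t m T)) := by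
  have e : (fun (m : ℕ) (T : (Fin 6 → ℕ) × ℕ) => q2 (ek (ss (v T.1))) (t m T)) =
      fun m T => (ek (ss (v T.1)) 5 * ek (ss (v T.1)) 5 +
        2 * (ek (ss (v T.1)) 3 * ek (ss (v T.1)) 7)) -
        4 * (t m T * ek (ss (v T.1)) 4 + ek (ss (v T.1)) 8 * ek (ss (v T.1)) 2) := by
    funext m T
    unfold q2
    ring
  rw [e]
  exact (((bo_e v hv 5).mul (bo_e v hv 5) (by omega)).add
    (BO.cmul 2 ((bo_e v hv 3).mul (bo_e v hv 7) (by omega)))).sub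
    (BO.cmul 4 ((ht.mul (bo_e v hv 4) (by omega)).add ((bo_e v hv 8).mul (bo_e v hv 2) (by omega))))

theorem bo_q1 (t : ℕ → (Fin 6 → ℕ) × ℕ → ℤ) (ht : BO 8 (fun m T => t m T)) : BO 16 (fun m T => q1 (ek (ss (v T.1))) (t m T)) := by
  have e : (fun (m : ℕ) (T : (Fin 6 → ℕ) × ℕ) => q1 (ek (ss (v T.1))) (t m T)) =
      fun m T => 2 * (ek (ss (v T.1)) 5 * ek (ss (v T.1)) 7) -
        4 * (t m T * (ek (ss (v T.1)) 6 - t m T) +
          ek (ss (v T.1)) 8 * ek (ss (v T.1)) 4) := by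
    funext m T
    unfold q1
    ring
  rw [e]
  exact (BO.cmul 2 ((bo_e v hv 5).mul (bo_e v hv 7) (by omega))).sub
    (BO.cmul 4 ((ht.mul (((bo_e v hv 6).mono (by omega)).sub ht) (by omega)).add
      ((bo_e v hv 8).mul (bo_e v hv 4) (by omega))))

theorem bo_q0 (t : ℕ → (Fin 6 → ℕ) × ℕ → ℤ) (ht : BO 8 (fun m T => t m T)) : BO 16 (fun m T => q0 (ek (ss (v T.1))) (t m T)) := by
  have e : (fun (m : ℕ) (T : (Fin 6 → ℕ) × ℕ) => q0 (ek (ss (v T.1))) (t m T)) =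
      fun m T => ek (ss (v T.1)) 7 * ek (ss (v T.1)) 7 -
        4 * (ek (ss (v T.1)) 8 * (ek (ss (v T.1)) 6 - t m T)) := by
    funext m T
    unfold q0
    ring
  rw [e]
  exact ((bo_e v hv 7).mul (bo_e v hv 7) (by omega)).sub
    (BO.cmul 4 ((bo_e v hv 8).mul (((bo_e v hv 6).mono (by omega)).sub ht) (by omega)))

theorem bo_I (t : ℕ → (Fin 6 → ℕ) × ℕ → ℤ) (ht : BO 8 (fun m T => t m T)) : BO 26 (fun m T => fI (ek (ss (v T.1))) (t m T)) := by
  have e : (fun (m : ℕ) (T : (Fin 6 → ℕ) × ℕ) => fI (ek (ss (v T.1))) (t m T)) =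
      fun m T => (12 * (q4 (ek (ss (v T.1))) (t m T) * q0 (ek (ss (v T.1))) (t m T)) -
        3 * (q3 (ek (ss (v T.1))) (t m T) * q1 (ek (ss (v T.1))) (t m T))) +
        q2 (ek (ss (v T.1))) (t m T) * q2 (ek (ss (v T.1))) (t m T) := by
    funext m T
    unfold fI
    ring
  rw [e]
  exact ((BO.cmul 12 ((bo_q4 v hv t ht).mul (bo_q0 v hv t ht) (by omega))).sub
    (BO.cmul 3 ((bo_q3 v hv t ht).mul (bo_q1 v hv t ht) (by omega)))).add
    ((bo_q2 v hv t ht).mul (bo_q2 v hv t ht) (by omega))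

theorem bo_J (t : ℕ → (Fin 6 → ℕ) × ℕ → ℤ) (ht : BO 8 (fun m T => t m T)) : BO 40 (fun m T => fJ (ek (ss (v T.1))) (t m T)) := by
  have e : (fun (m : ℕ) (T : (Fin 6 → ℕ) × ℕ) => fJ (ek (ss (v T.1))) (t m T)) =
      fun m T => (((72 * ((q4 (ek (ss (v T.1))) (t m T) * q2 (ek (ss (v T.1))) (t m T)) *
          q0 (ek (ss (v T.1))) (t m T)) +
        9 * ((q3 (ek (ss (v T.1))) (t m T) * q2 (ek (ss (v T.1))) (t m T)) *
          q1 (ek (ss (v T.1))) (t m T))) -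
        27 * (q4 (ek (ss (v T.1))) (t m T) * (q1 (ek (ss (v T.1))) (t m T) *
          q1 (ek (ss (v T.1))) (t m T)))) -
        27 * (q0 (ek (ss (v T.1))) (t m T) * (q3 (ek (ss (v T.1))) (t m T) *
          q3 (ek (ss (v T.1))) (t m T)))) -
        2 * (q2 (ek (ss (v T.1))) (t m T) * (q2 (ek (ss (v T.1))) (t m T) *
          q2 (ek (ss (v T.1))) (t m T))) := by
    funext m T
    unfold fJ
    ring
  rw [e]
  exact ((((BO.cmul 72 (((bo_q4 v hv t ht).mul (bo_q2 v hv t ht) (l := 20) (by omega)).mul (bo_q0 v hv t ht)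
      (by omega))).add
    (BO.cmul 9 (((bo_q3 v hv t ht).mul (bo_q2 v hv t ht) (l := 22) (by omega)).mul (bo_q1 v hv t ht)
      (by omega)))).sub
    (BO.cmul 27 ((bo_q4 v hv t ht).mul ((bo_q1 v hv t ht).mul (bo_q1 v hv t ht) (l := 32) (by omega))
      (by omega)))).sub
    (BO.cmul 27 ((bo_q0 v hv t ht).mul ((bo_q3 v hv t ht).mul (bo_q3 v hv t ht) (l := 20) (by omega))
      (by omega)))).sub
    (BO.cmul 2 ((bo_q2 v hv t ht).mul ((bo_q2 v hv t ht).mul (bo_q2 v hv t ht) (l := 24) (by omega)) (by omega)))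

end gen

theorem bo_uB (i : Fin 6) : BO 1 (fun _ T => uB T.1 i) := by
  have h := bo_lin MB (ub i) i
  unfold uB
  exact h

theorem bo_z : BO 4 (fun m T => zB m + MB * (T.2 : ℤ)) := by
  have h := bo_zlin MB 1937
  unfold zB
  exact h

theorem bo_t (hR : ST_RELB) : BO 8 (fun m T => tB m T) := by
  have h : BO 8 (fun m T => EB (ek (ss (uB T.1))) (ss (uB T.1) 7) -
      (zB m + MB * (T.2 : ℤ)) * (zB m + MB * (T.2 : ℤ))) :=
    ((bo_E uB bo_uB).mono (by omega)).sub (bo_z.mul bo_z (by omega))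
  refine bo_div 4 (by norm_num) h (fun m T => ?_)
  obtain ⟨-, h1, -⟩ := hR m T
  rw [h1, sq]

theorem bo_A (hR : ST_RELB) : BO 26 (fun m T => aB m T) := by
  refine bo_div 48 (by norm_num) (bo_I uB bo_uB tB (bo_t hR)).neg (fun m T => ?_)
  obtain ⟨-, -, -, h1, -⟩ := hR m T
  exact h1

theorem bo_B (hR : ST_RELB) : BO 40 (fun m T => bB m T) := by
  refine bo_div 1728 (by norm_num) (bo_J uB bo_uB tB (bo_t hR)).neg (fun m T => ?_)
  obtain ⟨-, -, -, -, h1, -⟩ := hR m T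
  exact h1

/-- one constant for `k ≤ 8` -/
theorem bo_all : ∃ C : ℤ, 0 ≤ C ∧ ∀ m : ℕ, 1 ≤ m → ∀ T ∈ BoxG 6 4 m, ∀ k, k ≤ 8 →
    |ek (ss (uB T.1)) k| ≤ C * (m : ℤ) ^ k := by
  choose c hc hH using fun k => bo_e uB bo_uB k
  refine ⟨∑ k ∈ Finset.range 9, c k, Finset.sum_nonneg (fun k _ => hc k),
    fun m hm T hT k hk => ?_⟩
  have h1 := hH k m hm T hT
  have h2 : c k ≤ ∑ k ∈ Finset.range 9, c k :=
    Finset.single_le_sum (fun k _ => hc k) (Finset.mem_range.2 (by omega))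
  have h3 : (0 : ℤ) ≤ (m : ℤ) ^ k := by positivity
  exact h1.trans (mul_le_mul_of_nonneg_right h2 h3)

end Pool.Helper34.R9.S25

namespace Pool.Helper34.R9

open Pool.Helper34.R9.S25
open Pool.Helper17.R8 (ek ss)

/-- Row BNDB. -/
theorem st_BNDB (hR : ST_RELB) (hRES2 : ST_RES2) : ST_BNDB := by
  obtain ⟨C1, hC1, H1⟩ := bo_all
  obtain ⟨C2, hC2, H2⟩ := bo_E uB bo_uB
  obtain ⟨C3, hC3, H3⟩ := bo_A hR
  obtain ⟨C4, hC4, H4⟩ := bo_B hR
  obtain ⟨C5, hC5, H5⟩ := hRES2 (C1 + 1) (by linarith)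
  refine ⟨C1 + C2 + C3 + C4 + C5, by linarith, fun m hm T hT => ?_⟩
  have key : ∀ (k : ℕ) (D x : ℤ), D ≤ C1 + C2 + C3 + C4 + C5 → |x| ≤ D * (m : ℤ) ^ k →
      |x| ≤ (C1 + C2 + C3 + C4 + C5) * (m : ℤ) ^ k := by
    intro k D x hD hx
    exact hx.trans (mul_le_mul_of_nonneg_right hD (by positivity))
  refine ⟨fun k hk => key k C1 _ (by linarith) (H1 m hm T hT k hk),
    key 6 C2 _ (by linarith) (H2 m hm T hT), key 26 C3 _ (by linarith) (H3 m hm T hT),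
    key 40 C4 _ (by linarith) (H4 m hm T hT), key 240 C5 _ (by linarith) ?_⟩
  refine H5 m _ hm (fun k hk => (H1 m hm T hT k hk).trans ?_)
  exact mul_le_mul_of_nonneg_right (by linarith) (by positivity)

end Pool.Helper34.R9
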