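import Mathlib
import Pool.Agent.Helper34.R9.Sheet

/-! # Row EKL of `Pool/Agent/Helper34/R9/Sheet.lean` -/

set_option autoImplicit false

namespace Pool.Helper34.R9

open Polynomial
open Pool.Helper17.R8 (ek)

/-- Row EKL. -/
theorem st_EKL : ST_EKL := by
  intro s l h k
  unfold ek
  constructor
  · refine natDegree_sum_le_of_forall_le _ _ (fun T hT => ?_)
    have hc : T.card = k := (Finset.mem_powersetCard.1 hT).2
    refine (natDegree_prod_le T s).trans ?_
    have h2 : ∑ i ∈ T, (s i).natDegree ≤ ∑ _i ∈ T, 1 :=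
      Finset.sum_le_sum (fun i _ => (h i).1)
    rw [Finset.sum_const, smul_eq_mul, mul_one, hc] at h2
    exact h2
  · rw [finsetSum_coeff]
    refine Finset.sum_congr rfl (fun T hT => ?_)
    have hc : T.card = k := (Finset.mem_powersetCard.1 hT).2
    have h1 := coeff_prod_of_natDegree_le T s 1 (fun i _ => (h i).1)
    rw [mul_one, hc] at h1
    rw [h1]
    exact Finset.prod_congr rfl (fun i _ => (h i).2)

end Pool.Helper34.R9
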